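import Pool.Agent.Helper30.EL.St

/-!
# Project EL, module NCH: the primitive character of a negative discriminant
-/

set_option autoImplicit false

noncomputable section

namespace Pool.Agent.Helper72.EL

open Pool.Agent.Helper30.EL
open Finset Filter Topology ArithmeticFunction
open Pool.Agent.Helper9.TW (gm Qs fm StC9)
open Pool.Agent.Helper18.TR (StBonf StFLmain StLevel)
open Pool.Agent.Helper15.AB (Th StDB StMT)
open Pool.Agent.Helper60.GP (II IsB JJ Err StBVc StPNT StBump StM2)
open Pool.Agent.Helper48.BK (StSW)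
open Pool.Agent.Helper93.KS (bq Pq SW bmq idq ejq mg Gb Vq AD UQ LQ HU HL StBXQ StT1 StDK StCEL StBMQ StSQR StDUA)

private theorem odd_val {D : ℕ} {x : ZMod (4 * D)} [NeZero (4 * D)] (hx : IsUnit x) : Odd x.val := by
  have h1 : Nat.Coprime x.val (4 * D) := by
    have h := (ZMod.isUnit_iff_coprime x.val (4 * D)).1 (by rwa [ZMod.natCast_zmod_val])
    exact h
  have h2 : Nat.Coprime x.val 2 := Nat.Coprime.coprime_dvd_right ⟨2 * D, by ring⟩ h1
  exact Nat.coprime_two_right.1 h2

private theorem jmod (D b : ℕ) (hb : Odd b) :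
    jacobiSym (-(D : ℤ)) (b % (4 * D)) = jacobiSym (-(D : ℤ)) b := by
  have h := jacobiSym.mod_right (-(D : ℤ)) hb
  rw [Int.natAbs_neg, Int.natAbs_natCast] at h
  exact h.symm

open Classical in
/-- The Jacobi symbol `J(- D | b)` as a character modulo `4 D`. -/
private def chi (D : ℕ) (hD : 1 ≤ D) : DirichletCharacter ℂ (4 * D) where
  toFun x := if IsUnit x then ((jacobiSym (-(D : ℤ)) x.val : ℤ) : ℂ) else 0
  map_one' := by
    have hne : NeZero (4 * D) := ⟨by omega⟩
    have h1 : Fact (1 < 4 * D) := ⟨by omega⟩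
    rw [if_pos isUnit_one, ZMod.val_one, jacobiSym.one_right, Int.cast_one]
  map_mul' x y := by
    have hne : NeZero (4 * D) := ⟨by omega⟩
    by_cases hx : IsUnit x
    · by_cases hy : IsUnit y
      · rw [if_pos (hx.mul hy), if_pos hx, if_pos hy, ZMod.val_mul]
        have ox := odd_val hx
        have oy := odd_val hy
        rw [jmod D _ (ox.mul oy), jacobiSym.mul_right' (-(D : ℤ)) ox.pos.ne' oy.pos.ne', Int.cast_mul]
      · have hxy : ¬ IsUnit (x * y) := fun h => hy (isUnit_of_mul_isUnit_right h)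
        rw [if_neg hxy, if_neg hy, mul_zero]
    · have hxy : ¬ IsUnit (x * y) := fun h => hx (isUnit_of_mul_isUnit_left h)
      rw [if_neg hxy, if_neg hx, zero_mul]
  map_nonunit' x hx := if_neg hx

open Classical in
private theorem chi_apply (D : ℕ) (hD : 1 ≤ D) (x : ZMod (4 * D)) :
    chi D hD x = if IsUnit x then ((jacobiSym (-(D : ℤ)) x.val : ℤ) : ℂ) else 0 := rfl

private theorem chi_nat (D : ℕ) (hD : 1 ≤ D) (b : ℕ) (hb : Nat.Coprime b (4 * D)) :
    chi D hD (b : ZMod (4 * D)) = ((jacobiSym (-(D : ℤ)) b : ℤ) : ℂ) := by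
  have hne : NeZero (4 * D) := ⟨by omega⟩
  have hu : IsUnit (b : ZMod (4 * D)) := (ZMod.isUnit_iff_coprime b (4 * D)).2 hb
  have ho : Odd b := Nat.coprime_two_right.1 (Nat.Coprime.coprime_dvd_right ⟨2 * D, by ring⟩ hb)
  rw [chi_apply, if_pos hu, ZMod.val_natCast, jmod D b ho]

theorem hNCH : StNCH := by
  intro D hD
  have hne : NeZero (4 * D) := ⟨by omega⟩
  have hf : (chi D hD).conductor ≠ 0 := DirichletCharacter.conductor_ne_zero _
  refine ⟨(chi D hD).conductor, ⟨hf⟩, (chi D hD).primitiveCharacter,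
    DirichletCharacter.primitiveCharacter_isPrimitive _,
    Nat.le_of_dvd (by omega) (DirichletCharacter.conductor_dvd_level _), ?_⟩
  intro p hp hp2 hpD
  have hc : Nat.Coprime p (4 * D) := by
    refine (Nat.Prime.coprime_iff_not_dvd hp).2 fun h => ?_
    rcases (Nat.Prime.dvd_mul hp).1 h with h4 | hD'
    · have h2 : p ∣ 2 := by
        have e : (4 : ℕ) = 2 ^ 2 := by norm_num
        rw [e] at h4
        exact hp.dvd_of_dvd_pow h4
      exact hp2 ((Nat.prime_dvd_prime_iff_eq hp Nat.prime_two).1 h2)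
    · exact hpD hD'
  have h1 : IsCoprime (p : ℤ) ((4 * D : ℕ) : ℤ) := Nat.isCoprime_iff_coprime.2 hc
  have h2 := (chi D hD).primitiveCharacter_apply_of_isCoprime h1
  rw [← chi_nat D hD p hc]
  exact_mod_cast h2

end Pool.Agent.Helper72.EL
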